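import Pool.Agent.W96.CL.Stm
set_option autoImplicit false

/-! CL-FLIP (helper96): the symmetry `z -> 1/z` for the first and the last strand. -/

namespace W96CL

lemma tau_inv_688 (x z : ℂ) : tau x z⁻¹ = tau x z := by
  unfold tau
  rw [div_inv_eq_mul, div_eq_mul_inv, mul_comm]

lemma ph1_inv_688 (x z : ℂ) : ph1 x z⁻¹ = ph1 x z := by
  unfold ph1
  rw [div_inv_eq_mul, div_eq_mul_inv, mul_comm]

lemma XX_comm_688 {A : Type} [Ring A] [Algebra ℂ A] (e : ℕ → A) (i : ℕ) (a b : ℂ) :
    XX e i a * XX e i b = XX e i b * XX e i a := by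
  unfold XX
  simp only [add_mul, mul_add, smul_mul_assoc, mul_smul_comm, one_mul, mul_one]
  module

lemma BB_last_688 {A : Type} [Ring A] [Algebra ℂ A] (e : ℕ → A) (x z : ℂ) (L : List ℂ) :
    ∀ i, BB e x i (L ++ [z⁻¹]) = BB e x i (L ++ [z]) := by
  induction L with
  | nil =>
    intro i
    simp only [List.nil_append, BB]
    rw [div_inv_eq_mul, ← div_eq_mul_inv, mul_one, mul_one, XX_comm_688]
  | cons w L ih =>
    intro i
    simp only [List.cons_append, BB]
    rw [ih]

lemma DD_last_688 {A : Type} [Ring A] [Algebra ℂ A] (e : ℕ → A) (x z : ℂ) (L : List ℂ) :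
    ∀ i, DD e x i (L ++ [z⁻¹]) = DD e x i (L ++ [z]) := by
  induction L with
  | nil =>
    intro i
    simp only [List.nil_append, DD, BB]
    rw [tau_inv_688, ph1_inv_688]
  | cons w L ih =>
    intro i
    simp only [List.cons_append, DD]
    rw [ih, BB_last_688]

theorem cl_flip : S_flip := by
  intro A _ _ e x i L z _
  refine ⟨?_, DD_last_688 e x z L i⟩
  simp only [DD]
  rw [tau_inv_688, ph1_inv_688]

end W96CL
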