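import Pool.Agent.W96.CL.Stm
set_option autoImplicit false

/-! CL-YBE (helper96): unitarity and the Yang-Baxter equation. -/

namespace W96CL

lemma uu_sq_688 : uu ^ 2 = uu - 1 := by
  have h3 : Real.sqrt 3 * Real.sqrt 3 = 3 := Real.mul_self_sqrt (by norm_num)
  unfold uu
  apply Complex.ext
  · simp [sq]
    nlinarith
  · simp [sq]
    ring

lemma om_eq_688 : om = uu ^ 2 := by
  rw [uu_sq_688]
  unfold om uu
  apply Complex.ext
  · simp; norm_num
  · simp

lemma unit_scalar_688 (a b u : ℂ) (hu : u ^ 2 = u - 1) (hb : a * b = u ^ 2) :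
    (u + (1 - u) * a) * ((1 - u) + u * b) + ((1 - u) + u * a) * (u + (1 - u) * b) +
      ((1 - u) + u * a) * ((1 - u) + u * b) = 0 := by grind

lemma ybe_scalar_688 (a b c u : ℂ) (hu : u ^ 2 = u - 1) (hb : b * u = a * c) :
    (u + (1 - u) * b) * ((u + (1 - u) * a) * ((1 - u) + u * c) +
      ((1 - u) + u * a) * (u + (1 - u) * c) + ((1 - u) + u * a) * ((1 - u) + u * c)) +
      ((1 - u) + u * a) * ((1 - u) + u * b) * ((1 - u) + u * c) =
      (u + (1 - u) * a) * ((1 - u) + u * b) * (u + (1 - u) * c) := by grind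

theorem cl_unit : S_unit := by
  intro A _ _ e N hTL i a b hi hab
  have he := hTL.sq i hi
  have hs := unit_scalar_688 a b uu uu_sq_688 (by rw [hab, om_eq_688])
  unfold XX
  have h1 : (wF a • (1 : A) + wT a • e i) * (wF b • (1 : A) + wT b • e i) =
      (wF a * wF b) • (1 : A) + (wF a * wT b + wT a * wF b + wT a * wT b) • e i := by
    simp only [add_mul, mul_add, smul_mul_assoc, mul_smul_comm, one_mul, mul_one, smul_smul, he]
    module
  rw [h1]
  have h2 : wF a * wT b + wT a * wF b + wT a * wT b = 0 := hs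
  rw [h2, zero_smul, add_zero]

lemma ybe_alg_688 {A : Type} [Ring A] [Algebra ℂ A] (E F : A) (fa ta fb tb fc tc : ℂ)
    (he : E * E = E) (h1 : E * (F * E) = E) :
    (fa • (1 : A) + ta • E) * (fb • (1 : A) + tb • F) *
      (fc • (1 : A) + tc • E) = (fa * fb * fc) • (1 : A) +
      (fb * (fa * tc + ta * fc + ta * tc) + ta * tb * tc) • E +
      (fa * tb * fc) • F + (fa * tb * tc) • (F * E) +
      (ta * tb * fc) • (E * F) := by
  simp only [add_mul, mul_add, smul_mul_assoc, mul_smul_comm, one_mul, mul_one, he,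
    mul_assoc, h1]
  module

theorem cl_ybe : S_ybe := by
  intro A _ _ e N hTL i a b c hi hb
  have he := hTL.sq i (by omega)
  have hf := hTL.sq (i + 1) (by omega)
  have h1 := hTL.up i hi
  have h2 := hTL.dn i hi
  have hs := ybe_scalar_688 a b c uu uu_sq_688 hb
  have hs' : wF b * (wF a * wT c + wT a * wF c + wT a * wT c) + wT a * wT b * wT c =
      wF a * wT b * wF c := hs
  rw [mul_assoc] at h1 h2
  unfold XX
  rw [ybe_alg_688 (e i) (e (i + 1)) _ _ _ _ _ _ he h1,
    ybe_alg_688 (e (i + 1)) (e i) _ _ _ _ _ _ hf h2, hs']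
  have hs2 : wF b * (wF c * wT a + wT c * wF a + wT c * wT a) + wT c * wT b * wT a =
      wF a * wT b * wF c := by rw [← hs']; ring
  rw [hs2]
  module

end W96CL
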